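import Pool.Agent.Lib.MP_0a131d_gt.Main

namespace Pool.Agent.Results.MP_0a131d_gt.LimitOne

open Pool.Agent.Lib.MP_0a131d_gt

/-- The optimal subgraph entropy constant tends to `1` as the rank tends to infinity. -/
theorem result : Filter.Tendsto C Filter.atTop (nhds 1) :=
  C_tendsto

end Pool.Agent.Results.MP_0a131d_gt.LimitOne
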