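import Pool.Agent.Lib.MP_0a131d_gt.Main

namespace Pool.Agent.Results.MP_0a131d_gt.LowerBound

open Pool.Agent.Lib.MP_0a131d_gt

/-- For every rank `r ≥ 3` the optimal subgraph entropy constant is at least
`(r - 2) / (r - 1)`; in particular it is at least `1 / 2`. -/
theorem result : ∀ r : ℕ, 3 ≤ r → ((r : ℝ) - 2) / ((r : ℝ) - 1) ≤ C r :=
  fun _ hr => (C_bounds hr).1

end Pool.Agent.Results.MP_0a131d_gt.LowerBound
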