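import Pool.Agent.Lib.MP_0a131d_gt.KFour

namespace Pool.Agent.Results.MP_0a131d_gt.NotTheta

open Pool.Agent.Lib.MP_0a131d_gt

/-- The graph with two vertices and four edges is not extremal in rank three: with `lam` the real
root of `x ^ 3 = x + 2`, one has `C 3 ≤ log lam / log 2 < log 2 / log 3`. -/
theorem result : ∃ lam : ℝ, lam ^ 3 = lam + 2 ∧ C 3 ≤ Real.log lam / Real.log 2 ∧
    Real.log lam / Real.log 2 < Real.log 2 / Real.log 3 :=
  not_theta

end Pool.Agent.Results.MP_0a131d_gt.NotTheta
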