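import Pool.Agent.Lib.MP_0a131d_gt.Doubling

namespace Pool.Agent.Results.MP_0a131d_gt.Order

open Pool.Agent.Lib.MP_0a131d_gt

/-- The optimal subgraph entropy constant stays below `1 - c / r` for an absolute `c > 0`. -/
theorem result : ∃ c : ℝ, 0 < c ∧ ∀ r : ℕ, 3 ≤ r → C r ≤ 1 - c / r :=
  C_order

end Pool.Agent.Results.MP_0a131d_gt.Order
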